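import Mathlib
import Pool.Agent.Helper52.Canopy.LDefs
import Pool.Agent.Helper37.Canopy.Graph

/-! Module L1 of the blueprint: one round of the ladder. -/

namespace Pool.Agent.Helper37.Canopy

open MeasureTheory ProbabilityTheory unitInterval SimpleGraph

namespace RoundAux

variable {E : Type*} {p : I}

theorem Pr_nonneg (A : Set (Cfg E)) : 0 ≤ Pr p A := measureReal_nonneg

theorem Pr_le_one (A : Set (Cfg E)) : Pr p A ≤ 1 := measureReal_le_one

theorem Pr_mono {A B : Set (Cfg E)} (h : A ⊆ B) : Pr p A ≤ Pr p B :=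
  measureReal_mono h

theorem Pr_compl {A : Set (Cfg E)} (hA : MeasurableSet A) : Pr p Aᶜ = 1 - Pr p A := by
  unfold Pr
  rw [measureReal_compl hA, probReal_univ]

theorem Pr_union {A B : Set (Cfg E)} (h : Disjoint A B) (hB : MeasurableSet B) :
    Pr p (A ∪ B) = Pr p A + Pr p B := by
  unfold Pr
  rw [measureReal_union h hB]

theorem Dep.compl {S : Set E} {A : Set (Cfg E)} (h : Dep S A) : Dep S Aᶜ := by
  intro ω ω' hω hA hA'
  exact hA (h ω' ω (fun e he => (hω e he).symm) hA')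

theorem Dep.mono {S T : Set E} {A : Set (Cfg E)} (h : Dep S A) (hST : S ⊆ T) : Dep T A :=
  fun ω ω' hω hA => h ω ω' (fun e he => hω e (hST he)) hA

theorem Dep.iff {S : Set E} {A : Set (Cfg E)} (h : Dep S A) {ω ω' : Cfg E}
    (hω : ∀ e ∈ S, ω e = ω' e) : ω ∈ A ↔ ω' ∈ A :=
  ⟨h ω ω' hω, h ω' ω (fun e he => (hω e he).symm)⟩

open Classical in
theorem measurableSet_count_lt {ι : Type*} (Z : Finset ι) (U : ι → Set (Cfg E))
    (hU : ∀ z ∈ Z, MeasurableSet (U z)) (t : ℕ) :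
    MeasurableSet {ω : Cfg E | (Z.filter (fun z => ω ∈ U z)).card < t} := by
  have : {ω : Cfg E | (Z.filter (fun z => ω ∈ U z)).card < t} =
      ⋃ Y ∈ Z.powerset.filter (fun Y => Y.card < t), (⋂ z ∈ Y, U z) ∩ ⋂ z ∈ Z \ Y, (U z)ᶜ := by
    ext ω
    simp only [Set.mem_ofPred_eq, Set.mem_iUnion, Set.mem_inter_iff, Set.mem_iInter,
      Finset.mem_filter, Finset.mem_powerset, Finset.mem_sdiff, Set.mem_compl_iff, exists_prop]
    constructor
    · intro h
      refine ⟨Z.filter (fun z => ω ∈ U z), ⟨Finset.filter_subset _ _, h⟩, ?_, ?_⟩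
      · intro z hz; exact (Finset.mem_filter.1 hz).2
      · rintro z ⟨hz, hz'⟩ hU'
        exact hz' (Finset.mem_filter.2 ⟨hz, hU'⟩)
    · rintro ⟨Y, ⟨hY, hYt⟩, h1, h2⟩
      refine lt_of_le_of_lt (Finset.card_le_card ?_) hYt
      intro z hz
      by_contra hzY
      exact h2 z ⟨(Finset.mem_filter.1 hz).1, hzY⟩ (Finset.mem_filter.1 hz).2
  rw [this]
  refine Finset.measurableSet_biUnion _ (fun Y hY => ?_)
  have hYZ : Y ⊆ Z := (Finset.mem_powerset.1 (Finset.mem_filter.1 hY).1)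
  refine MeasurableSet.inter (Finset.measurableSet_biInter _ (fun z hz => hU z (hYZ hz)))
    (Finset.measurableSet_biInter _ (fun z hz => (hU z (Finset.mem_sdiff.1 hz).1).compl))

open Classical in
theorem dep_count_lt {ι : Type*} (Z : Finset ι) (S : ι → Set E) (U : ι → Set (Cfg E))
    (dU : ∀ z ∈ Z, Dep (S z) (U z)) (t : ℕ) :
    Dep (⋃ z ∈ Z, S z) {ω : Cfg E | (Z.filter (fun z => ω ∈ U z)).card < t} := by
  intro ω ω' hω h
  simp only [Set.mem_ofPred_eq] at h ⊢
  have : Z.filter (fun z => ω' ∈ U z) = Z.filter (fun z => ω ∈ U z) := by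
    apply Finset.filter_congr
    intro z hz
    refine (Dep.iff (dU z hz) (fun e he => (hω e ?_).symm))
    simp only [Set.mem_iUnion, exists_prop]
    exact ⟨z, hz, he⟩
  rw [this]; exact h

open Classical in
/-- few successes among many independent events -/
theorem few_bound {ι : Type*} (Z : Finset ι) (S : ι → Set E) (U : ι → Set (Cfg E))
    (hS : (Z : Set ι).PairwiseDisjoint S) (hU : ∀ z ∈ Z, MeasurableSet (U z))
    (dU : ∀ z ∈ Z, Dep (S z) (U z)) {q : ℝ} (hq1 : q ≤ 1)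
    (h : ∀ z ∈ Z, q ≤ Pr p (U z)) (t : ℕ) :
    Pr p {ω : Cfg E | (Z.filter (fun z => ω ∈ U z)).card < t} ≤ 2 ^ t * (1 - q / 2) ^ Z.card := by
  induction Z using Finset.induction_on generalizing t with
  | empty =>
    simp only [Finset.filter_empty, Finset.card_empty, pow_zero, mul_one]
    exact le_trans (Pr_le_one _) (one_le_pow₀ (by norm_num))
  | insert z Z hz ih =>
    rcases Nat.eq_zero_or_pos t with rfl | ht
    · have : {ω : Cfg E | ((insert z Z).filter (fun z => ω ∈ U z)).card < 0} = ∅ := by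
        ext ω; simp
      rw [this]
      have h0 : Pr p (∅ : Set (Cfg E)) = 0 := by unfold Pr; simp
      rw [h0]; 
      have : 0 ≤ 1 - q / 2 := by linarith
      positivity
    obtain ⟨t, rfl⟩ : ∃ t', t = t' + 1 := ⟨t - 1, by omega⟩
    have hS' : (Z : Set ι).PairwiseDisjoint S := hS.subset (by simp)
    have ih' := ih hS' (fun z hz => hU z (Finset.mem_insert_of_mem hz))
      (fun z hz => dU z (Finset.mem_insert_of_mem hz)) (fun z hz => h z (Finset.mem_insert_of_mem hz))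
    have hzU := hU z (Finset.mem_insert_self _ _)
    have hzd := dU z (Finset.mem_insert_self _ _)
    have hzq := h z (Finset.mem_insert_self _ _)
    have hdisj : Disjoint (S z) (⋃ z ∈ Z, S z) := by
      rw [Set.disjoint_iUnion₂_right]
      intro z' hz'
      exact hS (by simp) (by simp [hz']) (fun hh => hz (hh ▸ hz'))
    set A : Set (Cfg E) := {ω : Cfg E | (Z.filter (fun z => ω ∈ U z)).card < t} with hA
    set B : Set (Cfg E) := {ω : Cfg E | (Z.filter (fun z => ω ∈ U z)).card < t + 1} with hB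
    have mA : MeasurableSet A := measurableSet_count_lt Z U
      (fun z hz => hU z (Finset.mem_insert_of_mem hz)) t
    have mB : MeasurableSet B := measurableSet_count_lt Z U
      (fun z hz => hU z (Finset.mem_insert_of_mem hz)) (t + 1)
    have dA : Dep (⋃ z ∈ Z, S z) A := dep_count_lt Z S U
      (fun z hz => dU z (Finset.mem_insert_of_mem hz)) t
    have dB : Dep (⋃ z ∈ Z, S z) B := dep_count_lt Z S U
      (fun z hz => dU z (Finset.mem_insert_of_mem hz)) (t + 1)
    have hsplit : {ω : Cfg E | ((insert z Z).filter (fun z => ω ∈ U z)).card < t + 1} =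
        (U z ∩ A) ∪ ((U z)ᶜ ∩ B) := by
      ext ω
      simp only [Set.mem_ofPred_eq, Set.mem_union, Set.mem_inter_iff, Set.mem_compl_iff, hA, hB]
      rw [Finset.filter_insert]
      by_cases hω : ω ∈ U z
      · rw [if_pos hω, Finset.card_insert_of_notMem (by simp [hz])]
        simp [hω]
      · rw [if_neg hω]; simp [hω]
    rw [hsplit, Pr_union (by
      rw [Set.disjoint_left]; rintro ω ⟨h1, _⟩ ⟨h2, _⟩; exact h2 h1) (hzU.compl.inter mB),
      Pr_inter hdisj hzU mA hzd dA, Pr_inter hdisj hzU.compl mB (Dep.compl hzd) dB, Pr_compl hzU,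
      Finset.card_insert_of_notMem hz]
    have e1 := ih' t
    have e2 := ih' (t + 1)
    have hx0 := Pr_nonneg (p := p) (U z)
    have hx1 := Pr_le_one (p := p) (U z)
    set x := Pr p (U z)
    set n := Z.card
    have hpow : 0 ≤ (1 - q / 2) ^ n := pow_nonneg (by linarith) _
    have f1 : x * Pr p A ≤ x * (2 ^ t * (1 - q / 2) ^ n) := mul_le_mul_of_nonneg_left e1 hx0
    have f2 : (1 - x) * Pr p B ≤ (1 - x) * (2 ^ (t + 1) * (1 - q / 2) ^ n) :=
      mul_le_mul_of_nonneg_left e2 (by linarith)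
    calc x * Pr p A + (1 - x) * Pr p B
        ≤ x * (2 ^ t * (1 - q / 2) ^ n) + (1 - x) * (2 ^ (t + 1) * (1 - q / 2) ^ n) :=
          add_le_add f1 f2
      _ = 2 ^ (t + 1) * (1 - q / 2) ^ n * (1 - x / 2) := by ring
      _ ≤ 2 ^ (t + 1) * (1 - q / 2) ^ n * (1 - q / 2) := by
          apply mul_le_mul_of_nonneg_left _ (by positivity)
          linarith
      _ = 2 ^ (t + 1) * (1 - q / 2) ^ (n + 1) := by ring

open Classical in
theorem measurableSet_half {ι : Type*} (Z : Finset ι) (U : ι → Set (Cfg E))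
    (hU : ∀ z ∈ Z, MeasurableSet (U z)) (c : ℝ) :
    MeasurableSet {ω : Cfg E | c * Z.card / 2 ≤ ((Z.filter (fun z => ω ∈ U z)).card : ℝ)} := by
  have : {ω : Cfg E | c * Z.card / 2 ≤ ((Z.filter (fun z => ω ∈ U z)).card : ℝ)} =
      {ω : Cfg E | (Z.filter (fun z => ω ∈ U z)).card < ⌈c * Z.card / 2⌉₊}ᶜ := by
    ext ω
    simp only [Set.mem_ofPred_eq, Set.mem_compl_iff, not_lt, Nat.ceil_le]
  rw [this]
  exact (measurableSet_count_lt Z U hU _).compl

open Classical in
theorem dep_half {ι : Type*} (Z : Finset ι) (S : Set E) (U : ι → Set (Cfg E))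
    (dU : ∀ z ∈ Z, Dep S (U z)) (c : ℝ) :
    Dep S {ω : Cfg E | c * Z.card / 2 ≤ ((Z.filter (fun z => ω ∈ U z)).card : ℝ)} := by
  intro ω ω' hω h
  have : Z.filter (fun z => ω' ∈ U z) = Z.filter (fun z => ω ∈ U z) := by
    apply Finset.filter_congr
    intro z hz
    exact (Dep.iff (dU z hz) (fun e he => (hω e he).symm))
  show c * Z.card / 2 ≤ ((Z.filter (fun z => ω' ∈ U z)).card : ℝ)
  rw [this]; exact h

open Classical in
/-- if `n` events have probability at least `c`, then with probability at least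
`c/2` at least `c n / 2` of them occur. -/
theorem half_bound {ι : Type*} (Z : Finset ι) (U : ι → Set (Cfg E))
    (hU : ∀ z ∈ Z, MeasurableSet (U z)) {c : ℝ} (hc0 : 0 ≤ c) (hc : c ≤ 1)
    (h : ∀ z ∈ Z, c ≤ Pr p (U z)) :
    c / 2 ≤ Pr p {ω : Cfg E | c * Z.card / 2 ≤ ((Z.filter (fun z => ω ∈ U z)).card : ℝ)} := by
  rcases Z.eq_empty_or_nonempty with rfl | hZ
  · have : {ω : Cfg E | c * ((∅ : Finset ι).card : ℝ) / 2 ≤
        (((∅ : Finset ι).filter (fun z => ω ∈ U z)).card : ℝ)} = Set.univ := by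
      ext ω; simp
    rw [this]
    have : Pr p (Set.univ : Set (Cfg E)) = 1 := by unfold Pr; simp
    rw [this]; linarith
  set G : Set (Cfg E) := {ω : Cfg E | c * Z.card / 2 ≤ ((Z.filter (fun z => ω ∈ U z)).card : ℝ)}
    with hG
  have hn : (0 : ℝ) < Z.card := by exact_mod_cast hZ.card_pos
  have mG : MeasurableSet G := measurableSet_half Z U hU c
  have hint : ∀ z ∈ Z, Integrable ((U z).indicator (fun _ => (1 : ℝ))) (mu E p) := by
    intro z hz
    exact (integrable_const 1).indicator (hU z hz)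
  have hsum : ∫ ω, ∑ z ∈ Z, (U z).indicator (fun _ => (1 : ℝ)) ω ∂(mu E p) =
      ∑ z ∈ Z, Pr p (U z) := by
    rw [integral_finsetSum _ hint]
    refine Finset.sum_congr rfl (fun z hz => ?_)
    rw [integral_indicator_const _ (hU z hz)]
    simp [Pr]
  have hintG : Integrable (G.indicator (fun _ => (1 : ℝ))) (mu E p) :=
    (integrable_const 1).indicator mG
  have hle : ∫ ω, ∑ z ∈ Z, (U z).indicator (fun _ => (1 : ℝ)) ω ∂(mu E p) ≤
      ∫ ω, (c * Z.card / 2 + Z.card * G.indicator (fun _ => (1 : ℝ)) ω) ∂(mu E p) := by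
    refine integral_mono (integrable_finsetSum _ hint)
      ((integrable_const _).add (hintG.const_mul _)) (fun ω => ?_)
    have h1 : ∑ z ∈ Z, (U z).indicator (fun _ => (1 : ℝ)) ω =
        ((Z.filter (fun z => ω ∈ U z)).card : ℝ) := by
      rw [Finset.card_filter]
      push_cast
      refine Finset.sum_congr rfl (fun z _ => ?_)
      by_cases hz : ω ∈ U z <;> simp [hz]
    simp only [h1]
    by_cases hω : ω ∈ G
    · rw [Set.indicator_of_mem hω]
      have h2 : ((Z.filter (fun z => ω ∈ U z)).card : ℝ) ≤ Z.card := by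
        exact_mod_cast Finset.card_filter_le _ _
      nlinarith
    · rw [Set.indicator_of_notMem hω]
      have hω' : ((Z.filter (fun z => ω ∈ U z)).card : ℝ) < c * Z.card / 2 := by
        by_contra hcon
        exact hω (not_lt.1 hcon)
      linarith
  have hGv : ∫ ω, (c * Z.card / 2 + Z.card * G.indicator (fun _ => (1 : ℝ)) ω) ∂(mu E p) =
      c * Z.card / 2 + Z.card * Pr p G := by
    rw [integral_add (integrable_const _) (hintG.const_mul _), integral_const,
      integral_const_mul, integral_indicator_const _ mG]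
    simp [Pr]
  have hlow : c * Z.card ≤ ∑ z ∈ Z, Pr p (U z) := by
    calc c * Z.card = ∑ z ∈ Z, c := by simp [mul_comm]
      _ ≤ _ := Finset.sum_le_sum h
  rw [hsum, hGv] at hle
  have : Z.card * (c / 2) ≤ Z.card * Pr p G := by linarith
  exact le_of_mul_le_mul_left this hn

end RoundAux

set_option linter.unusedSectionVars false
set_option linter.unusedSimpArgs false

section L

variable {D : Type} [AddCommGroup D] [Fintype D] [DecidableEq D] [Nontrivial D]

namespace RoundAux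

/-- vertical ray-to-ray edges (between consecutive ray columns) -/
def eE (D : Type) (κ i : ℕ) (x : ℤ) : Sym2 (LV D) := s((κ + i, none, x), (κ + i + 1, none, x))

/-- sibling edges -/
def fE (D : Type) (κ i : ℕ) (x : ℤ) : Sym2 (LV D) := s((κ + i, some [], x), (κ + i + 1, none, x))

/-- strip graph -/
noncomputable def strip (D : Type) (κ i : ℕ) : SimpleGraph (LV D) :=
  res (LG D) {q | q.1 = κ + i ∧ q.2.1 ≠ none}

def stripE (D : Type) (κ i : ℕ) : Set (Sym2 (LV D)) :=
  {e | ∃ z z' : List D, ∃ x x' : ℤ, e = s((κ + i, some z, x), (κ + i, some z', x'))}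

def S1 (D : Type) (κ : ℕ) (β : ℤ) : Set (Sym2 (LV D)) := {e | ∃ i x, x ≤ β ∧ e = eE D κ i x}

def S2 (D : Type) (κ : ℕ) (β : ℤ) : Set (Sym2 (LV D)) :=
  {e | (∃ i x, x ≤ β ∧ e = fE D κ i x) ∨ ∃ i, e ∈ stripE D κ i}

theorem eE_inj {κ i i' : ℕ} {x x' : ℤ} : eE D κ i x = eE D κ i' x' ↔ i = i' ∧ x = x' := by
  simp only [eE, Sym2.eq_iff, Prod.mk.injEq]
  constructor
  · rintro (⟨⟨h1, _, h2⟩, _⟩ | ⟨⟨h1, _, h2⟩, ⟨h3, _, h4⟩⟩)
    · exact ⟨by omega, h2⟩
    · omega
  · rintro ⟨rfl, rfl⟩; simp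

theorem fE_inj {κ i i' : ℕ} {x x' : ℤ} : fE D κ i x = fE D κ i' x' ↔ i = i' ∧ x = x' := by
  simp only [fE, Sym2.eq_iff, Prod.mk.injEq]
  constructor
  · rintro (⟨⟨h1, _, h2⟩, _⟩ | ⟨⟨h1, h1', h2⟩, ⟨h3, _, h4⟩⟩)
    · exact ⟨by omega, h2⟩
    · exact absurd h1' (by simp)
  · rintro ⟨rfl, rfl⟩; simp

theorem eE_ne_fE {κ i i' : ℕ} {x x' : ℤ} : eE D κ i x ≠ fE D κ i' x' := by
  simp [eE, fE, Sym2.eq_iff]

theorem eE_notMem_stripE {κ i i' : ℕ} {x : ℤ} : eE D κ i x ∉ stripE D κ i' := by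
  rintro ⟨z, z', y, y', h⟩
  simp [eE, Sym2.eq_iff] at h

theorem fE_notMem_stripE {κ i i' : ℕ} {x : ℤ} : fE D κ i x ∉ stripE D κ i' := by
  rintro ⟨z, z', y, y', h⟩
  simp [fE, Sym2.eq_iff] at h

theorem stripE_disj {κ i i' : ℕ} (h : i ≠ i') {e : Sym2 (LV D)} (he : e ∈ stripE D κ i) :
    e ∉ stripE D κ i' := by
  rintro ⟨z, z', y, y', h2⟩
  obtain ⟨w, w', v, v', h1⟩ := he
  rw [h1] at h2
  simp only [Sym2.eq_iff, Prod.mk.injEq] at h2
  omega

theorem strip_edge {κ i : ℕ} : (strip D κ i).edgeSet ⊆ stripE D κ i := by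
  intro e
  induction e using Sym2.ind with
  | _ u v =>
    intro h
    rw [mem_edgeSet] at h
    obtain ⟨_, ⟨h1, h2⟩, ⟨h3, h4⟩⟩ := h
    obtain ⟨a, b, x⟩ := u
    obtain ⟨a', b', x'⟩ := v
    simp only at h1 h2 h3 h4
    obtain ⟨z, rfl⟩ := Option.ne_none_iff_exists'.1 h2
    obtain ⟨z', rfl⟩ := Option.ne_none_iff_exists'.1 h4
    subst h1; subst h3
    exact ⟨z, z', x, x', rfl⟩

theorem strip_conn {p : I} {c : ℝ} {κ h K M : ℕ} (hK : K ≤ κ)
    (hR : RootConn D p K M (2 * h) c) (i : ℕ) {x : ℤ} (hx : (M : ℤ) ≤ x) {m : ℕ}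
    (hm : m ≤ 2 * h) :
    c ≤ Pr p (conn (strip D κ i) (κ + i, some [], x) (κ + i, some [], x + m)) := by
  refine le_trans (hR m hm) ?_
  have := Pr_conn_le (p := p) (G' := BG D K (-M) (m + M)) (G := strip D κ i)
    (fun q : List D × ℤ => ((κ + i, some q.1, x + q.2) : LV D)) (R' := Set.univ)
    (by
      rintro ⟨a, b⟩ _ ⟨a', b'⟩ _ hh
      simp only [Prod.mk.injEq, Option.some.injEq] at hh
      simp only [Prod.mk.injEq]
      exact ⟨hh.2.1, by linarith [hh.2.2]⟩) (fun _ _ _ => trivial)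
    (by
      rintro ⟨a, b⟩ ⟨a', b'⟩ ⟨hadj, ⟨h1, h2, h3⟩, ⟨h4, h5, h6⟩⟩
      simp only at h1 h2 h3 h4 h5 h6
      refine ⟨?_, ⟨rfl, by simp⟩, ⟨rfl, by simp⟩⟩
      have hne : ((κ + i, some a, x + b) : LV D) ≠ (κ + i, some a', x + b') := by
        intro hh
        simp only [Prod.mk.injEq, Option.some.injEq] at hh
        exact hadj.ne (by simp only [Prod.mk.injEq]; exact ⟨hh.2.1, by linarith [hh.2.2]⟩)
      refine (SimpleGraph.fromRel_adj _ _ _).2 ⟨hne, Or.inl ?_⟩
      refine LAdj.inn (κ + i) (a, x + b) (a', x + b') (by simp only; omega) (by simp only; omega)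
        (by simp only; omega) (by simp only; omega) ?_
      unfold WZ at hadj ⊢
      rw [boxProd_adj] at hadj ⊢
      rcases hadj with ⟨h7, h8⟩ | ⟨h7, h8⟩
      · left; simp only at h7 h8 ⊢; exact ⟨h7, by rw [h8]⟩
      · right; simp only at h7 h8 ⊢
        rw [zadj] at h7 ⊢
        exact ⟨by omega, h8⟩)
    ([], 0) ([], (m : ℤ))
  simpa using this

/-- ladder event -/
def ladF (D : Type) [DecidableEq D] (κ r : ℕ) (x : ℤ) : Finset (Sym2 (LV D)) :=
  (Finset.range r).image (fun i => eE D κ i x)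

def upF (D : Type) [DecidableEq D] (κ r j : ℕ) (z : ℤ) : Finset (Sym2 (LV D)) :=
  insert (fE D κ j z) ((Finset.Ico (j + 1) r).image (fun i => eE D κ i z))

def allOpen {E : Type*} (F : Finset E) : Set (Cfg E) := {ω | ∀ e ∈ F, ω e = true}

theorem dep_allOpen {E : Type*} (F : Finset E) : Dep (F : Set E) (allOpen F) := by
  intro ω ω' h h1 e he
  rw [← h e he]; exact h1 e he

theorem meas_allOpen {E : Type*} (F : Finset E) : MeasurableSet (allOpen F) :=
  measurableSet_of_dep (dep_allOpen F)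

theorem Pr_allOpen {E : Type*} {p : I} (F : Finset E) : Pr p (allOpen F) = (p : ℝ) ^ F.card :=
  Pr_open F

open Classical in
/-- attachment event -/
def att (D : Type) (κ h : ℕ) (c : ℝ) (j : ℕ) (x : ℤ) : Set (Cfg (Sym2 (LV D))) :=
  allOpen {fE D κ j x} ∩
  {ω | c * (Finset.Ioc h (2 * h)).card / 2 ≤ (((Finset.Ioc h (2 * h)).filter
    (fun m : ℕ => ω ∈ conn (strip D κ j) (κ + j, some [], x) (κ + j, some [], x + m))).card : ℝ)}

theorem meas_att (κ h : ℕ) (c : ℝ) (j : ℕ) (x : ℤ) : MeasurableSet (att D κ h c j x) :=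
  (meas_allOpen _).inter (measurableSet_half _ _ (fun _ _ => measurableSet_conn _ _ _) _)

theorem dep_att (κ h : ℕ) (c : ℝ) (j : ℕ) (x : ℤ) :
    Dep ({fE D κ j x} ∪ stripE D κ j) (att D κ h c j x) := by
  intro ω ω' hω ⟨h1, h2⟩
  refine ⟨dep_allOpen _ ω ω' (fun e he => hω e (Or.inl (by simpa using he))) h1, ?_⟩
  exact dep_half _ (stripE D κ j) _
    (fun m _ => Dep.mono (conn_dep _ _ _) strip_edge) c ω ω' (fun e he => hω e (Or.inr he)) h2

theorem Pr_att {p : I} {c : ℝ} (hc0 : 0 ≤ c) (hc1 : c ≤ 1) {κ h K M : ℕ} (hK : K ≤ κ)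
    (hR : RootConn D p K M (2 * h) c) (j : ℕ) {x : ℤ} (hx : (M : ℤ) ≤ x) :
    p * c / 2 ≤ Pr p (att D κ h c j x) := by
  unfold att
  have hdep := dep_half (Finset.Ioc h (2 * h)) (stripE D κ j)
    (fun m : ℕ => conn (strip D κ j) (κ + j, some [], x) (κ + j, some [], x + m))
    (fun m _ => Dep.mono (conn_dep _ _ _) strip_edge) c
  have hmeas := measurableSet_half (Finset.Ioc h (2 * h))
    (fun m : ℕ => conn (strip D κ j) (κ + j, some [], x) (κ + j, some [], x + m))
    (fun _ _ => measurableSet_conn _ _ _) c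
  rw [Pr_inter (S := (({fE D κ j x} : Finset (Sym2 (LV D))) : Set (Sym2 (LV D))))
    (T := stripE D κ j) _ (meas_allOpen _) hmeas (dep_allOpen _) hdep, Pr_allOpen]
  · have := half_bound (p := p) (Finset.Ioc h (2 * h))
      (fun m : ℕ => conn (strip D κ j) (κ + j, some [], x) (κ + j, some [], x + m))
      (fun _ _ => measurableSet_conn _ _ _) hc0 hc1
      (fun m hm => strip_conn hK hR j hx (by
        rw [Finset.mem_Ioc] at hm; exact hm.2))
    have hp := p.2.1
    rw [Finset.card_singleton, pow_one]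
    have := mul_le_mul_of_nonneg_left this hp
    calc (p : ℝ) * c / 2 = p * (c / 2) := by ring
      _ ≤ _ := this
  · rw [Set.disjoint_left]
    intro e he
    rw [Finset.coe_singleton, Set.mem_singleton_iff] at he
    rw [he]; exact fE_notMem_stripE

theorem card_ladF (κ r : ℕ) (x : ℤ) : (ladF D κ r x).card = r := by
  unfold ladF
  rw [Finset.card_image_of_injective _ (fun i i' h => (eE_inj.1 h).1), Finset.card_range]

theorem card_upF_le (κ r j : ℕ) (hj : j < r) (z : ℤ) : (upF D κ r j z).card ≤ r + 1 := by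
  unfold upF
  refine le_trans (Finset.card_insert_le _ _) ?_
  have := Finset.card_image_le (s := Finset.Ico (j + 1) r) (f := fun i => eE D κ i z)
  rw [Nat.card_Ico] at this
  omega

theorem Pr_lads {p : I} (κ r : ℕ) (X : Finset ℤ) {T : ℕ} (hX : T ≤ X.card) :
    1 - (1 - (p : ℝ) ^ r) ^ T ≤ Pr p (⋃ x ∈ X, allOpen (ladF D κ r x)) := by
  have hp0 := p.2.1
  have hp1 := p.2.2
  have hpr : (p : ℝ) ^ r ≤ 1 := pow_le_one₀ hp0 hp1
  have hpr0 : 0 ≤ (p : ℝ) ^ r := pow_nonneg hp0 _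
  have := le_Pr_biUnion (p := p) X (fun x => ((ladF D κ r x : Finset _) : Set (Sym2 (LV D))))
    (fun x => allOpen (ladF D κ r x)) (by
      intro x _ x' _ hxx'
      rw [Function.onFun, Set.disjoint_left]
      intro e he he'
      simp only [ladF, Finset.coe_image, Set.mem_image] at he he'
      obtain ⟨i, _, rfl⟩ := he
      obtain ⟨i', _, h⟩ := he'
      exact hxx' (eE_inj.1 h).2.symm)
    (fun x _ => meas_allOpen _) (fun x _ => dep_allOpen _) hpr0
    (fun x _ => by rw [Pr_allOpen, card_ladF])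
  refine le_trans ?_ this
  have : (1 - (p : ℝ) ^ r) ^ X.card ≤ (1 - (p : ℝ) ^ r) ^ T :=
    pow_le_pow_of_le_one (by linarith) (by linarith) hX
  linarith

theorem Pr_atts {p : I} {c : ℝ} (hc0 : 0 ≤ c) (hc1 : c ≤ 1) {κ h K M : ℕ} (hK : K ≤ κ)
    (hR : RootConn D p K M (2 * h) c) (r : ℕ) {x : ℤ} (hx : (M : ℤ) ≤ x) :
    1 - (1 - p * c / 2) ^ r ≤ Pr p (⋃ j ∈ Finset.range r, att D κ h c j x) := by
  have hp0 := p.2.1
  have := le_Pr_biUnion (p := p) (Finset.range r)
    (fun j => ({fE D κ j x} ∪ stripE D κ j : Set (Sym2 (LV D))))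
    (fun j => att D κ h c j x) (by
      intro j _ j' _ hjj'
      rw [Function.onFun, Set.disjoint_left]
      rintro e (he | he) (he' | he')
      · rw [Set.mem_singleton_iff] at he he'
        exact hjj' (fE_inj.1 (he.symm.trans he')).1
      · rw [Set.mem_singleton_iff] at he
        rw [he] at he'; exact fE_notMem_stripE he'
      · rw [Set.mem_singleton_iff] at he'
        rw [he'] at he; exact fE_notMem_stripE he
      · exact stripE_disj hjj' he he')
    (fun j _ => meas_att _ _ _ _ _) (fun j _ => dep_att _ _ _ _ _)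
    (c := p * c / 2) (by positivity) (fun j _ => Pr_att hc0 hc1 hK hR j hx)
  rw [Finset.card_range] at this
  exact this

open Classical in
theorem Pr_ups {p : I} (κ r j : ℕ) (hj : j < r) (Z : Finset ℤ) (T' n : ℕ) (hn : n ≤ Z.card) :
    1 - 2 ^ T' * (1 - (p : ℝ) ^ (r + 1) / 2) ^ n ≤
      Pr p {ω : Cfg (Sym2 (LV D)) |
        (Z.filter (fun z => ω ∈ allOpen (upF D κ r j z))).card < T'}ᶜ := by
  have hp0 := p.2.1
  have hp1 := p.2.2
  have hpr : (p : ℝ) ^ (r + 1) ≤ 1 := pow_le_one₀ hp0 hp1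
  have hpr0 : 0 ≤ (p : ℝ) ^ (r + 1) := pow_nonneg hp0 _
  have hdisj : (Z : Set ℤ).PairwiseDisjoint
      (fun z => ((upF D κ r j z : Finset _) : Set (Sym2 (LV D)))) := by
    intro z _ z' _ hzz'
    rw [Function.onFun, Set.disjoint_left]
    intro e he he'
    simp only [upF, Finset.coe_insert, Finset.coe_image, Set.mem_insert_iff, Set.mem_image]
      at he he'
    rcases he with rfl | ⟨i, _, rfl⟩ <;> rcases he' with h | ⟨i', _, h⟩
    · exact hzz' (fE_inj.1 h).2
    · exact eE_ne_fE h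
    · exact eE_ne_fE h
    · exact hzz' (eE_inj.1 h).2.symm
  have := few_bound (p := p) Z (fun z => ((upF D κ r j z : Finset _) : Set (Sym2 (LV D))))
    (fun z => allOpen (upF D κ r j z)) hdisj (fun z _ => meas_allOpen _)
    (fun z _ => dep_allOpen _) hpr (fun z _ => by
      rw [Pr_allOpen]
      exact pow_le_pow_of_le_one hp0 hp1 (card_upF_le κ r j hj z)) T'
  rw [Pr_compl (measurableSet_count_lt Z _ (fun z _ => meas_allOpen _) T')]
  have h2 : (1 - (p : ℝ) ^ (r + 1) / 2) ^ Z.card ≤ (1 - (p : ℝ) ^ (r + 1) / 2) ^ n :=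
    pow_le_pow_of_le_one (by linarith) (by linarith) hn
  have h3 : (2 : ℝ) ^ T' * (1 - (p : ℝ) ^ (r + 1) / 2) ^ Z.card ≤
      2 ^ T' * (1 - (p : ℝ) ^ (r + 1) / 2) ^ n := mul_le_mul_of_nonneg_left h2 (by positivity)
  linarith

theorem adj_e {κ r i : ℕ} (hi : i < r) {x : ℤ} (hx : 0 ≤ x) {τ : Cfg (Sym2 (LV D))}
    (hτ : τ (eE D κ i x) = true) :
    (opn (fresh D κ r) τ).Adj (κ + i, none, x) (κ + i + 1, none, x) := by
  refine ⟨⟨⟨?_, ?_, ?_⟩, ?_⟩, hτ⟩
  · refine (SimpleGraph.fromRel_adj _ _ _).2 ⟨by simp, Or.inl (LAdj.up _ _ hx)⟩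
  · exact Or.inl ⟨rfl, by simp only; omega⟩
  · exact Or.inl ⟨rfl, by simp only; omega⟩
  · rintro ⟨_, h | h⟩
    · simp only at h; omega
    · simp at h

theorem adj_f {κ r i : ℕ} (hi : i < r) {x : ℤ} (hx : 0 ≤ x) {τ : Cfg (Sym2 (LV D))}
    (hτ : τ (fE D κ i x) = true) :
    (opn (fresh D κ r) τ).Adj (κ + i, some [], x) (κ + i + 1, none, x) := by
  refine ⟨⟨⟨?_, ?_, ?_⟩, ?_⟩, hτ⟩
  · refine (SimpleGraph.fromRel_adj _ _ _).2 ⟨by simp, Or.inl (LAdj.sib _ _ hx)⟩
  · exact Or.inr ⟨by simp, by simp only; omega⟩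
  · exact Or.inl ⟨rfl, by simp only; omega⟩
  · rintro ⟨h | h, _⟩
    · simp at h
    · simp only at h; omega

theorem reach_col {κ r : ℕ} {x : ℤ} (hx : 0 ≤ x) {τ : Cfg (Sym2 (LV D))} {a b : ℕ} (hab : a ≤ b)
    (hb : b ≤ r) (h : ∀ i, a ≤ i → i < b → τ (eE D κ i x) = true) :
    (opn (fresh D κ r) τ).Reachable (κ + a, none, x) (κ + b, none, x) := by
  induction b, hab using Nat.le_induction with
  | base => exact Reachable.refl _
  | succ b hab ih =>
    refine (ih (by omega) (fun i h1 h2 => h i h1 (by omega))).trans ?_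
    exact (adj_e (by omega) hx (h b hab (by omega))).reachable

theorem strip_le {κ r j : ℕ} (hj : j < r) {ω τ : Cfg (Sym2 (LV D))}
    (h : ∀ e ∈ stripE D κ j, τ e = ω e) : opn (strip D κ j) ω ≤ opn (fresh D κ r) τ := by
  intro u v huv
  obtain ⟨h1, h2⟩ := huv
  have he : s(u, v) ∈ stripE D κ j := strip_edge ((mem_edgeSet _).2 h1)
  obtain ⟨h3, ⟨h4, h5⟩, ⟨h6, h7⟩⟩ := h1
  refine ⟨⟨⟨h3, Or.inr ⟨h5, by omega⟩, Or.inr ⟨h7, by omega⟩⟩, ?_⟩, by rw [h _ he]; exact h2⟩
  rintro ⟨h8 | h8, _⟩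
  · exact h5 h8.1
  · omega

theorem splice_mem {E : Type*} {S : Set E} {ω ω' : Cfg E} {e : E} (h : e ∈ S) :
    splice S ω ω' e = ω e := by simp [splice, h]

theorem splice_notMem {E : Type*} {S : Set E} {ω ω' : Cfg E} {e : E} (h : e ∉ S) :
    splice S ω ω' e = ω' e := by simp [splice, h]

theorem measurable_spliceR {E : Type*} (S : Set E) (ω : Cfg E) :
    Measurable (fun ω' => splice S ω ω') := by
  rw [measurable_pi_iff]
  intro e
  by_cases he : e ∈ S
  · have : (fun ω' : Cfg E => splice S ω ω' e) = fun _ => ω e := by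
      funext ω'; exact splice_mem he
    rw [this]; exact measurable_const
  · have : (fun ω' : Cfg E => splice S ω ω' e) = fun ω' => ω' e := by
      funext ω'; exact splice_notMem he
    rw [this]; exact measurable_pi_apply e

theorem meas_roundEv (κ r : ℕ) (X : Finset ℤ) (T' : ℕ) (a b : ℤ) :
    MeasurableSet (roundEv D κ r X T' a b) := by
  have : roundEv D κ r X T' a b = ⋃ Y ∈ {Y : Finset ℤ | T' ≤ Y.card ∧ ∀ y ∈ Y, a ≤ y ∧ y ≤ b},
      ⋂ y ∈ Y, ⋃ x ∈ X, conn (fresh D κ r) (κ, none, x) (κ + r, none, y) := by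
    ext ω
    simp only [roundEv, conn, Set.mem_ofPred_eq, Set.mem_iUnion, Set.mem_iInter, exists_prop,
      and_assoc]
  rw [this]
  refine MeasurableSet.biUnion (Set.to_countable _) (fun Y _ => ?_)
  refine Finset.measurableSet_biInter _ (fun y _ => ?_)
  exact Finset.measurableSet_biUnion _ (fun x _ => measurableSet_conn _ _ _)

end RoundAux

open RoundAux

/-- L1: one round. -/
theorem round_bound {p : I} {c : ℝ} (hc : 0 < c) {κ r h T T' K M : ℕ} (hK : K ≤ κ)
    (hR : RootConn D p K M (2 * h) c) (X : Finset ℤ) (hX : T ≤ X.card) {α : ℤ}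
    (hX' : ∀ x ∈ X, α ≤ x ∧ x ≤ α + h) (hα : (M : ℤ) ≤ α) :
    1 - ((1 - (p : ℝ) ^ r) ^ T + (1 - p * c / 2) ^ r
      + 2 ^ T' * (1 - (p : ℝ) ^ (r + 1) / 2) ^ ⌈c * h / 2⌉₊)
      ≤ Pr p (roundEv D κ r X T' (α + h + 1) (α + 3 * h)) := by
  classical
  have hp0 : (0 : ℝ) ≤ p := p.2.1
  have hp1 : (p : ℝ) ≤ 1 := p.2.2
  have hc1 : c ≤ 1 := le_trans (hR 0 (Nat.zero_le _)) (Pr_le_one _)
  have hα0 : 0 ≤ α := le_trans (Int.natCast_nonneg _) hα
  set A := roundEv D κ r X T' (α + h + 1) (α + 3 * h) with hA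
  have mA : MeasurableSet A := meas_roundEv _ _ _ _ _ _
  set ε1 : ℝ := (1 - (p : ℝ) ^ r) ^ T with hε1
  set ε2 : ℝ := (1 - p * c / 2) ^ r with hε2
  set ε3 : ℝ := 2 ^ T' * (1 - (p : ℝ) ^ (r + 1) / 2) ^ ⌈c * h / 2⌉₊ with hε3
  have hpr : (p : ℝ) ^ r ≤ 1 := pow_le_one₀ hp0 hp1
  have hpr0 : 0 ≤ (p : ℝ) ^ r := pow_nonneg hp0 _
  have hpr' : (p : ℝ) ^ (r + 1) ≤ 1 := pow_le_one₀ hp0 hp1
  have hpr0' : 0 ≤ (p : ℝ) ^ (r + 1) := pow_nonneg hp0 _
  have hpc : (p : ℝ) * c ≤ 1 := by nlinarith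
  have hpc0 : 0 ≤ (p : ℝ) * c := by positivity
  have e10 : 0 ≤ ε1 := pow_nonneg (by linarith) _
  have e11 : ε1 ≤ 1 := pow_le_one₀ (by linarith) (by linarith)
  have e20 : 0 ≤ ε2 := pow_nonneg (by linarith) _
  have e21 : ε2 ≤ 1 := pow_le_one₀ (by linarith) (by linarith)
  have e30 : 0 ≤ ε3 := mul_nonneg (by positivity) (pow_nonneg (by linarith) _)
  rcases le_or_gt 1 ε3 with h1 | h1
  · linarith [Pr_nonneg (p := p) A]
  have key : (1 - ε3) * (1 - ε2) * (1 - ε1) ≤ Pr p A := by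
    have hB1 := Pr_lads (D := D) (p := p) κ r X hX
    refine le_trans (mul_le_mul_of_nonneg_left hB1
      (mul_nonneg (by linarith) (by linarith))) ?_
    refine mul_Pr_le_of_splice (S1 D κ (α + h)) mA
      (Finset.measurableSet_biUnion _ (fun x _ => meas_allOpen _)) (fun ω hω => ?_)
    simp only [Set.mem_iUnion, exists_prop] at hω
    obtain ⟨x, hxX, hlad⟩ := hω
    obtain ⟨hx1, hx2⟩ := hX' x hxX
    have mA1 : MeasurableSet {ω' | splice (S1 D κ (α + h)) ω ω' ∈ A} :=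
      measurable_spliceR _ _ mA
    have hB2 := Pr_atts (D := D) hc.le hc1 hK hR r (x := x) (by linarith)
    refine le_trans (mul_le_mul_of_nonneg_left hB2 (by linarith)) ?_
    refine mul_Pr_le_of_splice (S2 D κ (α + h)) mA1
      (Finset.measurableSet_biUnion _ (fun x _ => meas_att _ _ _ _ _)) (fun ω' hω' => ?_)
    simp only [Set.mem_iUnion, exists_prop, Finset.mem_range] at hω'
    obtain ⟨j, hj, hf, hZ⟩ := hω'
    set Z0 : Finset ℕ := (Finset.Ioc h (2 * h)).filter
      (fun m : ℕ => ω' ∈ conn (strip D κ j) (κ + j, some [], x) (κ + j, some [], x + m)) with hZ0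
    set Z : Finset ℤ := Z0.image (fun m : ℕ => x + (m : ℤ)) with hZdef
    have hZcard : ⌈c * h / 2⌉₊ ≤ Z.card := by
      rw [hZdef, Finset.card_image_of_injective _ (fun a b hab => by
        have hab' : x + (a : ℤ) = x + (b : ℤ) := hab
        omega), Nat.ceil_le]
      have : (Finset.Ioc h (2 * h)).card = h := by rw [Nat.card_Ioc]; omega
      have hZ' : c * ((Finset.Ioc h (2 * h)).card : ℝ) / 2 ≤ (Z0.card : ℝ) := hZ
      rw [this] at hZ'
      exact hZ'
    have hB3 := Pr_ups (D := D) (p := p) κ r j hj Z T' _ hZcard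
    refine le_trans hB3 (Pr_mono ?_)
    intro ω'' hω''
    have hω3 : T' ≤ (Z.filter (fun z => ω'' ∈ allOpen (upF D κ r j z))).card := by
      by_contra hcon
      exact hω'' (not_le.1 hcon)
    show splice (S1 D κ (α + h)) ω (splice (S2 D κ (α + h)) ω' ω'') ∈ A
    set τ := splice (S1 D κ (α + h)) ω (splice (S2 D κ (α + h)) ω' ω'') with hτ
    refine ⟨Z.filter (fun z => ω'' ∈ allOpen (upF D κ r j z)), hω3, ?_, ?_⟩
    · intro y hy
      rw [Finset.mem_filter, hZdef, Finset.mem_image] at hy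
      obtain ⟨⟨m, hm, rfl⟩, _⟩ := hy
      rw [hZ0, Finset.mem_filter, Finset.mem_Ioc] at hm
      obtain ⟨⟨hm1, hm2⟩, _⟩ := hm
      constructor <;> omega
    · intro y hy
      refine ⟨x, hxX, ?_⟩
      rw [Finset.mem_filter, hZdef, Finset.mem_image] at hy
      obtain ⟨⟨m, hm, rfl⟩, hup⟩ := hy
      rw [hZ0, Finset.mem_filter, Finset.mem_Ioc] at hm
      obtain ⟨⟨hm1, hm2⟩, hconn⟩ := hm
      have hx0 : 0 ≤ x := by linarith
      -- values of τ
      have t1 : ∀ i, i < r → τ (eE D κ i x) = true := by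
        intro i hi
        rw [hτ, splice_mem (show eE D κ i x ∈ S1 D κ (α + h) from ⟨i, x, hx2, rfl⟩)]
        exact hlad _ (Finset.mem_image.2 ⟨i, Finset.mem_range.2 hi, rfl⟩)
      have t2 : τ (fE D κ j x) = true := by
        rw [hτ, splice_notMem, splice_mem]
        · exact hf _ (by simp)
        · exact Or.inl ⟨j, x, hx2, rfl⟩
        · rintro ⟨i, y, _, hh⟩; exact eE_ne_fE hh.symm
      have t3 : ∀ e ∈ stripE D κ j, τ e = ω' e := by
        intro e he
        rw [hτ, splice_notMem, splice_mem]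
        · exact Or.inr ⟨j, he⟩
        · rintro ⟨i, y, _, rfl⟩; exact eE_notMem_stripE he
      have hgt : ¬ (x + (m : ℤ) ≤ α + h) := by omega
      have t4 : τ (fE D κ j (x + m)) = true := by
        rw [hτ, splice_notMem, splice_notMem]
        · exact hup _ (Finset.mem_insert_self _ _)
        · rintro (⟨i, y, hy, hh⟩ | ⟨i, hh⟩)
          · rw [(fE_inj.1 hh).2] at hgt; exact hgt hy
          · exact fE_notMem_stripE hh
        · rintro ⟨i, y, _, hh⟩; exact eE_ne_fE hh.symm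
      have t5 : ∀ i, j + 1 ≤ i → i < r → τ (eE D κ i (x + m)) = true := by
        intro i hi1 hi2
        rw [hτ, splice_notMem, splice_notMem]
        · exact hup _ (Finset.mem_insert_of_mem (Finset.mem_image.2
            ⟨i, Finset.mem_Ico.2 ⟨hi1, hi2⟩, rfl⟩))
        · rintro (⟨i, y, hy, hh⟩ | ⟨i, hh⟩)
          · exact eE_ne_fE hh
          · exact eE_notMem_stripE hh
        · rintro ⟨i', y, hy, hh⟩
          rw [(eE_inj.1 hh).2] at hgt; exact hgt hy
      have r1 := reach_col (D := D) (κ := κ) (r := r) (x := x) hx0 (τ := τ) (a := 0) (b := j + 1)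
        (by omega) (by omega) (fun i _ hi => t1 i (by omega))
      have r2 := (adj_f (D := D) hj hx0 t2).symm.reachable
      have r3 := Reachable.mono (strip_le (D := D) (r := r) hj t3) hconn
      have hxm : 0 ≤ x + (m : ℤ) := by omega
      have r4 := (adj_f (D := D) hj hxm t4).reachable
      have r5 := reach_col (D := D) (κ := κ) (r := r) (x := x + m) hxm (τ := τ) (a := j + 1)
        (b := r) (by omega) le_rfl t5
      exact ((((r1.trans r2).trans r3).trans r4).trans r5)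
  have : 1 - (ε1 + ε2 + ε3) ≤ (1 - ε3) * (1 - ε2) * (1 - ε1) := by
    have q1 : 0 ≤ ε1 * ε2 * (1 - ε3) := by
      apply mul_nonneg (mul_nonneg e10 e20); linarith
    nlinarith [mul_nonneg e10 e30, mul_nonneg e20 e30]
  linarith

end L

end Pool.Agent.Helper37.Canopy
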